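import Pool.Agent.H14.LV.WEM

/-!
Board ari_modules, row QUA: quadratic sums.
-/

set_option autoImplicit false

open Finset Polynomial Pool.Agent.H26.LV

namespace Pool.Agent.H14.LV

/-- The second difference is divisible by the product of the steps. -/
theorem second_diff (f : ℤ[X]) (z h t : ℤ) :
    ∃ R : ℤ, f.eval (z + t + h) - f.eval (z + t) - f.eval (z + h) + f.eval z = h * t * R := by
  induction f using Polynomial.induction_on' with
  | add p q hp hq =>
    obtain ⟨a, ha⟩ := hp
    obtain ⟨b, hb⟩ := hq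
    refine ⟨a + b, ?_⟩
    simp only [Polynomial.eval_add]
    linear_combination ha + hb
  | monomial n c =>
    have key : ∀ j : ℕ, ∃ R : ℤ, (z + t + h) ^ j - (z + t) ^ j - (z + h) ^ j + z ^ j =
        h * t * R := by
      intro j
      induction j with
      | zero => exact ⟨0, by ring⟩
      | succ j ih =>
        obtain ⟨R, hR⟩ := ih
        obtain ⟨A, hA⟩ : h ∣ (z + t + h) ^ j - (z + t) ^ j := by
          have := sub_dvd_pow_sub_pow (z + t + h) (z + t) j
          rwa [add_sub_cancel_left] at this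
        obtain ⟨B, hB⟩ : t ∣ (z + t + h) ^ j - (z + h) ^ j := by
          have h1 := sub_dvd_pow_sub_pow (z + t + h) (z + h) j
          have h2 : z + t + h - (z + h) = t := by ring
          rwa [h2] at h1
        refine ⟨z * R + A + B, ?_⟩
        simp only [pow_succ]
        linear_combination z * hR + t * hA + h * hB
    obtain ⟨R, hR⟩ := key n
    refine ⟨c * R, ?_⟩
    simp only [Polynomial.eval_monomial]
    linear_combination c * hR

/-- The second difference of a polynomial dominated by its quadratic term. -/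
theorem second_diff' {p : ℕ} {μ : ℕ} {g : ℤ[X]} (hg : ∀ j, 3 ≤ j → (p : ℤ) ^ μ ∣ g.coeff j)
    (z h t : ℤ) :
    ∃ R : ℤ, g.eval (z + t + h) - g.eval (z + t) - g.eval (z + h) + g.eval z =
      h * t * (2 * g.coeff 2 + (p : ℤ) ^ μ * R) := by
  obtain ⟨f, hf⟩ : C ((p : ℤ) ^ μ) ∣
      g - C (g.coeff 0) - C (g.coeff 1) * X - C (g.coeff 2) * X ^ 2 := by
    rw [Polynomial.C_dvd_iff_dvd_coeff]
    intro j
    simp only [Polynomial.coeff_sub, Polynomial.coeff_C_mul, Polynomial.coeff_X,
      Polynomial.coeff_X_pow, Polynomial.coeff_C]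
    rcases j with _ | _ | _ | j
    · norm_num
    · norm_num
    · norm_num
    · have := hg (j + 3) (by omega)
      simpa using this
  have hg' : g = C (g.coeff 0) + C (g.coeff 1) * X + C (g.coeff 2) * X ^ 2 +
      C ((p : ℤ) ^ μ) * f := by
    rw [← hf]; ring
  obtain ⟨R, hR⟩ := second_diff f z h t
  refine ⟨R, ?_⟩
  have he : ∀ x : ℤ, g.eval x = g.coeff 0 + g.coeff 1 * x + g.coeff 2 * x ^ 2 +
      (p : ℤ) ^ μ * f.eval x := by
    intro x
    conv_lhs => rw [hg']
    simp
  rw [he, he, he, he]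
  linear_combination (p : ℤ) ^ μ * hR

/-- A suitable shift. -/
theorem exists_shift {p n μ : ℕ} {c h : ℤ} (hp : p.Prime) (hμ : μ = 2 ∨ p ≠ 2 ∧ μ = 1)
    (hc : ¬ (p : ℤ) ∣ c) (hh : ¬ (p : ℤ) ^ n ∣ 2 * h) :
    ∃ t : ℤ, (p : ℤ) ^ n ∣ (p : ℤ) ^ μ * (h * t) ∧ ¬ (p : ℤ) ^ n ∣ 2 * c * (h * t) := by
  have hpp : Prime (p : ℤ) := Nat.prime_iff_prime_int.1 hp
  have hne : 2 * h ≠ 0 := fun h0 => hh (by rw [h0]; exact dvd_zero _)
  have hfin : FiniteMultiplicity (p : ℤ) (2 * h) :=
    FiniteMultiplicity.of_prime_left hpp hne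
  obtain ⟨u, hu, hpu⟩ := hfin.exists_eq_pow_mul_and_not_dvd
  set a := multiplicity (p : ℤ) (2 * h) with ha
  have han : a < n := by
    by_contra hcon
    push Not at hcon
    apply hh
    rw [hu]
    exact Dvd.dvd.mul_right (pow_dvd_pow _ hcon) _
  obtain ⟨b, hb⟩ : ∃ b, n = a + b + 1 := ⟨n - a - 1, by omega⟩
  have h2 : 2 * (h * (p : ℤ) ^ b) = u * (p : ℤ) ^ (a + b) := by
    rw [pow_add]
    linear_combination (p : ℤ) ^ b * hu
  refine ⟨(p : ℤ) ^ b, ?_, ?_⟩
  · rcases hμ with rfl | ⟨h2p, rfl⟩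
    · by_cases h2p : p = 2
      · subst h2p
        refine ⟨u, ?_⟩
        rw [hb, pow_succ]
        push_cast at h2 ⊢
        linear_combination 2 * h2
      · have hcop : IsCoprime ((p : ℤ) ^ n) 2 := by
          apply IsCoprime.pow_left
          have h1 : Nat.Coprime p 2 := (Nat.coprime_primes hp Nat.prime_two).2 h2p
          exact_mod_cast Nat.isCoprime_iff_coprime.2 h1
        apply hcop.dvd_of_dvd_mul_left
        refine ⟨u * p, ?_⟩
        rw [hb, pow_succ]
        linear_combination (p : ℤ) ^ 2 * h2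
    · have hcop : IsCoprime ((p : ℤ) ^ n) 2 := by
        apply IsCoprime.pow_left
        have h1 : Nat.Coprime p 2 := (Nat.coprime_primes hp Nat.prime_two).2 h2p
        exact_mod_cast Nat.isCoprime_iff_coprime.2 h1
      apply hcop.dvd_of_dvd_mul_left
      refine ⟨u, ?_⟩
      rw [hb, pow_succ]
      linear_combination (p : ℤ) ^ 1 * h2
  · intro hcon
    have e : 2 * c * (h * (p : ℤ) ^ b) = (p : ℤ) ^ (a + b) * (c * u) := by
      linear_combination c * h2
    rw [e, hb, pow_succ] at hcon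
    have h3 : (p : ℤ) ∣ c * u :=
      (mul_dvd_mul_iff_left (pow_ne_zero _ hpp.ne_zero)).1 hcon
    rcases hpp.dvd_or_dvd h3 with h4 | h4
    · exact hc h4
    · exact hpu h4

theorem pf_QUA : T_QUA := by
  intro p n μ g hp hμ hc hg
  classical
  have hp0 : 0 < p := hp.pos
  set q := p ^ n with hq
  have hq0 : 0 < q := pow_pos hp0 n
  have : NeZero q := ⟨hq0.ne'⟩
  set ψ : AddChar (ZMod q) ℂ := ZMod.stdAddChar with hψ
  set G := g.map (Int.castRingHom (ZMod q)) with hG
  have hGe : ∀ a : ℤ, G.eval (a : ZMod q) = ((g.eval a : ℤ) : ZMod q) := by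
    intro a
    have h := Polynomial.eval_intCast_map (Int.castRingHom (ZMod q)) g a
    simpa only [Int.cast_id, eq_intCast] using h
  have hqz : (q : ℤ) = (p : ℤ) ^ n := by rw [hq]; push_cast; rfl
  -- the correlation sums
  set T : ZMod q → ℂ := fun h => ∑ z : ZMod q, ψ (G.eval (z + h) - G.eval z) with hT
  have hTn : ∀ h, ‖T h‖ ≤ q := by
    intro h
    calc ‖T h‖ ≤ ∑ z : ZMod q, ‖ψ (G.eval (z + h) - G.eval z)‖ := norm_sum_le _ _
      _ = ∑ _z : ZMod q, (1 : ℝ) := Finset.sum_congr rfl fun z _ => AddChar.norm_apply ψ _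
      _ = q := by simp [ZMod.card]
  have hT0 : ∀ h, 2 * h ≠ 0 → T h = 0 := by
    intro h hh
    have hh' : ¬ (p : ℤ) ^ n ∣ 2 * (h.val : ℤ) := by
      intro hd
      apply hh
      have h1 : ((2 * (h.val : ℤ) : ℤ) : ZMod q) = 0 := by
        rw [ZMod.intCast_zmod_eq_zero_iff_dvd]
        rw [hqz]; exact hd
      simpa using h1
    obtain ⟨t, ht1, ht2⟩ := exists_shift hp hμ hc hh'
    set w : ZMod q := ((2 * g.coeff 2 * ((h.val : ℤ) * t) : ℤ) : ZMod q) with hw
    have hw0 : w ≠ 0 := by
      rw [hw, Ne, ZMod.intCast_zmod_eq_zero_iff_dvd]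
      rw [hqz]; exact ht2
    have hψw : ψ w ≠ 1 := by
      intro h1
      apply hw0
      apply ZMod.injective_stdAddChar
      rw [← hψ, h1]; simp
    have hstep : ∀ z : ZMod q, ψ (G.eval (z + (t : ZMod q) + h) - G.eval (z + (t : ZMod q))) =
        ψ w * ψ (G.eval (z + h) - G.eval z) := by
      intro z
      obtain ⟨R, hR⟩ := second_diff' (p := p) hg (z.val : ℤ) (h.val : ℤ) t
      have hz : ((z.val : ℤ) : ZMod q) = z := by simp
      have hhv : ((h.val : ℤ) : ZMod q) = h := by simp
      have e1 : G.eval (z + (t : ZMod q) + h) =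
          ((g.eval ((z.val : ℤ) + t + (h.val : ℤ)) : ℤ) : ZMod q) := by
        rw [← hGe]; push_cast; rw [← hz, ← hhv]; push_cast; simp
      have e2 : G.eval (z + (t : ZMod q)) = ((g.eval ((z.val : ℤ) + t) : ℤ) : ZMod q) := by
        rw [← hGe]; push_cast; simp
      have e3 : G.eval (z + h) = ((g.eval ((z.val : ℤ) + (h.val : ℤ)) : ℤ) : ZMod q) := by
        rw [← hGe]; push_cast; simp
      have e4 : G.eval z = ((g.eval (z.val : ℤ) : ℤ) : ZMod q) := by
        rw [← hGe]; simp
      rw [← AddChar.map_add_eq_mul]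
      congr 1
      rw [e1, e2, e3, e4, hw]
      have hz0 : (((p : ℤ) ^ μ * ((h.val : ℤ) * t) : ℤ) : ZMod q) = 0 := by
        rw [ZMod.intCast_zmod_eq_zero_iff_dvd]
        rw [hqz]; exact ht1
      have hRc := congrArg (fun a : ℤ => (a : ZMod q)) hR
      push_cast at hRc hz0 ⊢
      linear_combination hRc + R * hz0
    have hTt : T h = ψ w * T h := by
      calc T h = ∑ z : ZMod q, ψ (G.eval (z + (t : ZMod q) + h) - G.eval (z + (t : ZMod q))) := by
            exact (Equiv.sum_comp (Equiv.addRight (t : ZMod q))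
              (fun z => ψ (G.eval (z + h) - G.eval z))).symm
        _ = ∑ z : ZMod q, ψ w * ψ (G.eval (z + h) - G.eval z) :=
            Finset.sum_congr rfl fun z _ => hstep z
        _ = ψ w * T h := by rw [← Finset.mul_sum]
    have h2 : (ψ w - 1) * T h = 0 := by linear_combination -hTt
    rcases mul_eq_zero.1 h2 with h3 | h3
    · exact absurd (sub_eq_zero.1 h3) hψw
    · exact h3
  -- the square of the sum
  set Sg : ℂ := ∑ z : ZMod q, ψ (G.eval z) with hS
  have hsq : (‖Sg‖ ^ 2 : ℝ) = ‖∑ h : ZMod q, T h‖ := by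
    have h1 : Sg * (starRingEnd ℂ) Sg = ∑ h : ZMod q, T h := by
      rw [hS, map_sum, Finset.sum_mul_sum, Finset.sum_comm]
      simp only [hT]
      rw [Finset.sum_comm (s := Finset.univ) (t := Finset.univ)
        (f := fun h z => ψ (G.eval (z + h) - G.eval z))]
      refine Finset.sum_congr rfl fun z _ => ?_
      rw [← Equiv.sum_comp (Equiv.addLeft z)
        (fun w => ψ (G.eval w) * (starRingEnd ℂ) (ψ (G.eval z)))]
      refine Finset.sum_congr rfl fun h _ => ?_
      rw [← AddChar.map_neg_eq_conj, ← AddChar.map_add_eq_mul, ← sub_eq_add_neg]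
      rfl
    rw [← h1, norm_mul, RCLike.norm_conj]
    ring
  have hbound : ‖∑ h : ZMod q, T h‖ ≤ 2 * q := by
    have h1 : ∑ h : ZMod q, T h = ∑ h ∈ Finset.univ.filter (fun h : ZMod q => 2 * h = 0), T h := by
      rw [Finset.sum_filter]
      refine Finset.sum_congr rfl fun h _ => ?_
      split_ifs with hh
      · rfl
      · exact hT0 h hh
    have h2 : (Finset.univ.filter (fun h : ZMod q => 2 * h = 0)).card ≤ 2 := by
      have hsub : Finset.univ.filter (fun h : ZMod q => 2 * h = 0) ⊆
          {(0 : ZMod q), ((q / 2 : ℕ) : ZMod q)} := by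
        intro h hh
        have hh2 := (Finset.mem_filter.1 hh).2
        have h3 : ((2 * h.val : ℕ) : ZMod q) = 0 := by push_cast; simpa using hh2
        rw [ZMod.natCast_eq_zero_iff] at h3
        obtain ⟨c', hc'⟩ := h3
        have hlt := ZMod.val_lt h
        have hc2 : c' < 2 := by
          by_contra hcon
          push Not at hcon
          have : q * 2 ≤ q * c' := Nat.mul_le_mul_left _ hcon
          omega
        have hv : h = ((h.val : ℕ) : ZMod q) := by simp
        simp only [Finset.mem_insert, Finset.mem_singleton]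
        interval_cases c'
        · left
          rw [hv]
          have : h.val = 0 := by omega
          rw [this]; simp
        · right
          have h5 : h.val = q / 2 := by omega
          rw [hv, h5]
      exact (Finset.card_le_card hsub).trans Finset.card_le_two
    rw [h1]
    calc _ ≤ ∑ h ∈ Finset.univ.filter (fun h : ZMod q => 2 * h = 0), ‖T h‖ := norm_sum_le _ _
      _ ≤ ∑ _h ∈ Finset.univ.filter (fun h : ZMod q => 2 * h = 0), (q : ℝ) :=
          Finset.sum_le_sum fun h _ => hTn h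
      _ = ((Finset.univ.filter (fun h : ZMod q => 2 * h = 0)).card : ℝ) * q := by
          rw [Finset.sum_const, nsmul_eq_mul]
      _ ≤ 2 * q := by
          refine mul_le_mul_of_nonneg_right ?_ (Nat.cast_nonneg _)
          exact_mod_cast h2
  have hn : ‖SS q g‖ = (1 / (q : ℝ)) * ‖Sg‖ := by
    rw [SS, norm_mul, norm_div, norm_one, Complex.norm_natCast, sum_eq q g]
  have hqr : (0 : ℝ) < q := by exact_mod_cast hq0
  have hpq : (p : ℝ) ^ n = q := by rw [hq]; push_cast; rfl
  rw [hpq, hn, mul_pow, hsq]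
  calc (1 / (q : ℝ)) ^ 2 * ‖∑ h : ZMod q, T h‖ ≤ (1 / (q : ℝ)) ^ 2 * (2 * q) :=
        mul_le_mul_of_nonneg_left hbound (by positivity)
    _ = 2 / (q : ℝ) := by field_simp

end Pool.Agent.H14.LV
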