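import Pool.Agent.H26.LV.TargetsAri
import Pool.Agent.H51.AW.All

/-!
Board ari_modules, rows QUA and WEM: quadratic sums and the bound of Weil.
-/

set_option autoImplicit false

open Finset Polynomial Pool.Agent.H26.LV

namespace Pool.Agent.H14.LV

/-- The values of `ee` through the standard additive character. -/
theorem ee_eq (q : ℕ) [NeZero q] (n : ℤ) :
    ee q n = ZMod.stdAddChar ((n : ZMod q)) := by
  rw [ZMod.stdAddChar_coe, ee]
  congr 1
  ring

/-- The complete sum as a sum over `ZMod q`. -/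
theorem sum_eq (q : ℕ) [NeZero q] (g : ℤ[X]) :
    ∑ z ∈ range q, ee q (g.eval (z : ℤ)) =
      ∑ z : ZMod q, ZMod.stdAddChar ((g.map (Int.castRingHom (ZMod q))).eval z) := by
  refine Finset.sum_bij' (fun z _ => (z : ZMod q)) (fun z _ => z.val) ?_ ?_ ?_ ?_ ?_
  · intro z _; exact Finset.mem_univ _
  · intro z _; exact Finset.mem_range.2 (ZMod.val_lt z)
  · intro z hz; exact ZMod.val_cast_of_lt (Finset.mem_range.1 hz)
  · intro z _; exact ZMod.natCast_zmod_val z
  · intro z _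
    rw [ee_eq]
    have h := Polynomial.eval_intCast_map (Int.castRingHom (ZMod q)) g (z : ℤ)
    simp only [Int.cast_natCast, eq_intCast] at h
    rw [h]

theorem pf_WEM : T_WEM := by
  intro k p g hp hkp hg hprm
  have : Fact p.Prime := ⟨hp⟩
  have hp0 : (0 : ℝ) < p := by exact_mod_cast hp.pos
  set f := g.map (Int.castRingHom (ZMod p)) with hf
  obtain ⟨j, hj2, hj⟩ := hprm
  have hjc : f.coeff j ≠ 0 := by
    rw [hf, Polynomial.coeff_map, eq_intCast, Ne, ZMod.intCast_zmod_eq_zero_iff_dvd]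
    exact hj
  have hdl : 2 ≤ f.natDegree := hj2.trans (Polynomial.le_natDegree_of_ne_zero hjc)
  have hdu : f.natDegree ≤ k := Polynomial.natDegree_map_le.trans hg
  have hdc : (f.natDegree : ZMod p) ≠ 0 := by
    rw [Ne, ZMod.natCast_eq_zero_iff]
    intro h
    have := Nat.le_of_dvd (by omega) h
    omega
  have hψ : (ZMod.stdAddChar : AddChar (ZMod p) ℂ) ≠ 1 := by
    intro h
    have h1 := (ZMod.injective_stdAddChar (N := p)) (a₁ := 1) (a₂ := 0)
      (by rw [h]; simp)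
    exact one_ne_zero h1
  have hw := Pool.Agent.H51.AW.weil (ZMod p) ZMod.stdAddChar hψ f (by omega) hdc
  rw [ZMod.card] at hw
  have hk0 : ((f.natDegree : ℝ) - 1) ≤ k := by
    have : (f.natDegree : ℝ) ≤ k := by exact_mod_cast hdu
    linarith
  have hw2 : ‖∑ z ∈ range p, ee p (g.eval (z : ℤ))‖ ≤ k * Real.sqrt p := by
    rw [sum_eq p g]
    exact hw.trans (mul_le_mul_of_nonneg_right hk0 (Real.sqrt_nonneg _))
  have hn : ‖SS p g‖ = (1 / (p : ℝ)) * ‖∑ z ∈ range p, ee p (g.eval (z : ℤ))‖ := by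
    rw [SS, norm_mul, norm_div, norm_one, Complex.norm_natCast]
  rw [hn, mul_pow]
  have hsq : ‖∑ z ∈ range p, ee p (g.eval (z : ℤ))‖ ^ 2 ≤ (k * Real.sqrt p) ^ 2 :=
    pow_le_pow_left₀ (norm_nonneg _) hw2 2
  rw [mul_pow, Real.sq_sqrt hp0.le] at hsq
  calc (1 / (p : ℝ)) ^ 2 * ‖∑ z ∈ range p, ee p (g.eval (z : ℤ))‖ ^ 2
      ≤ (1 / (p : ℝ)) ^ 2 * ((k : ℝ) ^ 2 * p) := mul_le_mul_of_nonneg_left hsq (by positivity)
    _ = (k : ℝ) ^ 2 / p := by field_simp

end Pool.Agent.H14.LV
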